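import Pool.Agent.R221.HG.Fin

/-!
# MP_877d49_an: an `s`-norm on `L_p` making the Haar system 1-greedy

For every `1 < p < ∞`, real or complex scalars, there are `0 < s < 1` and an equivalent `s`-norm on
`L_p[0,1]` for which the Haar system is 1-greedy.
-/

open MeasureTheory

namespace Pool.Agent.Results.MP_877d49_an.SNormRenorming

/-- `L_p[0,1]` with Lebesgue measure, over the scalar field `𝕜`. -/
abbrev LpI (𝕜 : Type) [RCLike 𝕜] (p : ℝ) : Type :=
  Lp 𝕜 (ENNReal.ofReal p) (volume.restrict (Set.Icc (0 : ℝ) 1))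

/-- The indices of the Haar functions: `none` stands for `h_0`, and `some ⟨n, k⟩`, `0 ≤ k < 2 ^ n`,
for the Haar function of the dyadic interval `[k / 2 ^ n, (k + 1) / 2 ^ n)`. -/
abbrev Idx : Type := Option (Σ n : ℕ, Fin (2 ^ n))

/-- The Haar functions, normalised in `L_p`: `h_0 = 1` on `[0,1)` and
`h_{n,k} = 2 ^ (n / p) (1_{[k/2^n, (k+1/2)/2^n)} - 1_{[(k+1/2)/2^n, (k+1)/2^n)})`. -/
noncomputable def haar (p : ℝ) : Idx → ℝ → ℝ
  | none => Set.indicator (Set.Ico 0 1) (fun _ => 1)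
  | some ⟨n, k⟩ => fun x => (2 : ℝ) ^ ((n : ℝ) / p) *
      (Set.indicator (Set.Ico ((k : ℝ) / 2 ^ n) (((k : ℝ) + 1 / 2) / 2 ^ n)) (fun _ => (1 : ℝ)) x
        - Set.indicator (Set.Ico (((k : ℝ) + 1 / 2) / 2 ^ n) (((k : ℝ) + 1) / 2 ^ n))
          (fun _ => (1 : ℝ)) x)

lemma haar_eq (p : ℝ) (j : Idx) : haar p j = R221.HG.haarFun p j := by
  rcases j with _ | ⟨n, k⟩ <;> rfl

lemma haar_memLp (𝕜 : Type) [RCLike 𝕜] (p : ℝ) (j : Idx) :
    MemLp (fun x => ((haar p j x : ℝ) : 𝕜)) (ENNReal.ofReal p)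
      (volume.restrict (Set.Icc (0 : ℝ) 1)) := by
  rw [haar_eq]
  exact R221.HG.memLp_haarFun 𝕜 p j

/-- The Haar functions as elements of `L_p[0,1]`. -/
noncomputable def haarVec (𝕜 : Type) [RCLike 𝕜] (p : ℝ) (j : Idx) : LpI 𝕜 p :=
  (haar_memLp 𝕜 p j).toLp _

variable {𝕜 : Type} [RCLike 𝕜]

/-- The Haar coefficient `a_j(f)` of `f ∈ L_p[0,1]`: the integral of `f` against the `j`-th Haar
function normalised in `L_q`, `q = p / (p - 1)` (these functions are biorthogonal to the Haar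
functions normalised in `L_p`). -/
noncomputable def coeff (p : ℝ) (j : Idx) (f : LpI 𝕜 p) : 𝕜 :=
  ∫ x in Set.Icc (0 : ℝ) 1, ((haar (p / (p - 1)) j x : ℝ) : 𝕜) * f x

/-- `N` is an `s`-norm on `L_p[0,1]` which is equivalent to the usual norm. -/
structure IsEquivSNorm {p : ℝ} (s : ℝ) (N : LpI 𝕜 p → ℝ) : Prop where
  nonneg : ∀ f, 0 ≤ N f
  eq_zero : ∀ f, N f = 0 ↔ f = 0
  smul : ∀ (c : 𝕜) (f : LpI 𝕜 p), N (c • f) = ‖c‖ * N f
  add : ∀ f g : LpI 𝕜 p, N (f + g) ^ s ≤ N f ^ s + N g ^ s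
  equiv : ∃ c C : ℝ, 0 < c ∧ ∀ f : LpI 𝕜 p, c * ‖f‖ ≤ N f ∧ N f ≤ C * ‖f‖

/-- The Haar system is 1-greedy with respect to `N`: for all `f` and all finite greedy sets `A` of
`f`, the greedy sum of `A` is a best approximation of `f` (measured by `N`) among all linear
combinations of at most `|A|` Haar functions. -/
def IsOneGreedy {p : ℝ} (N : LpI 𝕜 p → ℝ) : Prop :=
  ∀ (f : LpI 𝕜 p) (A : Finset Idx), (∀ j ∈ A, ∀ i ∉ A, ‖coeff p i f‖ ≤ ‖coeff p j f‖) →
    ∀ (B : Finset Idx) (b : Idx → 𝕜), B.card ≤ A.card →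
      N (f - ∑ j ∈ A, coeff p j f • haarVec 𝕜 p j) ≤ N (f - ∑ j ∈ B, b j • haarVec 𝕜 p j)

section proof

open R221.HG Pool.Agent.H66R3.PG
open scoped ENNReal NNReal

lemma haarVec_eq (p : ℝ) (j : Idx) : haarVec 𝕜 p j = (hv 𝕜 p j : Lp 𝕜 (ENNReal.ofReal p) mu) := by
  unfold haarVec hv
  congr 1

lemma coeff_eq (p : ℝ) (j : Idx) (f : LpI 𝕜 p) : coeff p j f = coef p j f := by
  unfold coeff coef
  rw [haar_eq]
  rfl

theorem main {p : ℝ} (hp : 1 < p) [Fact (1 ≤ ENNReal.ofReal p)] :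
    ∃ s : ℝ, 0 < s ∧ s < 1 ∧ ∃ N : Lp 𝕜 (ENNReal.ofReal p) mu → ℝ,
      ((∀ f, 0 ≤ N f) ∧ (∀ f, N f = 0 ↔ f = 0) ∧
      (∀ (c : 𝕜) (f : Lp 𝕜 (ENNReal.ofReal p) mu), N (c • f) = ‖c‖ * N f) ∧
      (∀ f g : Lp 𝕜 (ENNReal.ofReal p) mu, N (f + g) ^ s ≤ N f ^ s + N g ^ s) ∧
      (∃ c C : ℝ, 0 < c ∧ ∀ f : Lp 𝕜 (ENNReal.ofReal p) mu, c * ‖f‖ ≤ N f ∧ N f ≤ C * ‖f‖)) ∧
      (∀ (f : Lp 𝕜 (ENNReal.ofReal p) mu) (A : Finset R221.HG.Idx),
        (∀ j ∈ A, ∀ i ∉ A, ‖coef p i f‖ ≤ ‖coef p j f‖) →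
        ∀ (B : Finset R221.HG.Idx) (b : R221.HG.Idx → 𝕜), B.card ≤ A.card →
        N (f - ∑ j ∈ A, coef p j f • hv 𝕜 p j) ≤ N (f - ∑ j ∈ B, b j • hv 𝕜 p j)) := by
  obtain ⟨D, hM⟩ := latNorm hp
  obtain ⟨C, hC⟩ := equiv_all (𝕜 := 𝕜) hp
  have hNle : ∀ f : Lp 𝕜 (ENNReal.ofReal p) mu,
      NN (MM p) (ab p f) ≤ (1 + D) * (C * ENNReal.ofReal ‖f‖) := fun f =>
    (NN_le_M hM _).trans (by gcongr; exact (hC f).1)
  have hfin : ∀ f : Lp 𝕜 (ENNReal.ofReal p) mu, NN (MM p) (ab p f) ≠ ⊤ := by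
    intro f
    refine ne_top_of_le_ne_top ?_ (hNle f)
    exact ENNReal.mul_ne_top (by simp) (ENNReal.mul_ne_top (by simp) ENNReal.ofReal_ne_top)
  have hMN : ∀ f : Lp 𝕜 (ENNReal.ofReal p) mu, MM p (ab p f) ≤ NN (MM p) (ab p f) :=
    fun f => M_le_NN hM (finL_ab hp f)
  have hlow : ∀ f : Lp 𝕜 (ENNReal.ofReal p) mu, ‖f‖ ≤ 2 * Nf p f := by
    intro f
    have h1 := (hC f).2.trans (mul_le_mul_right (hMN f) 2)
    have h2 := ENNReal.toReal_mono (ENNReal.mul_ne_top (by simp) (hfin f)) h1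
    rw [ENNReal.toReal_ofReal (norm_nonneg _), ENNReal.toReal_mul] at h2
    exact h2
  have hup : ∀ f : Lp 𝕜 (ENNReal.ofReal p) mu, Nf p f ≤ (1 + D) * C * ‖f‖ := by
    intro f
    have h2 := ENNReal.toReal_mono
      (ENNReal.mul_ne_top (by simp) (ENNReal.mul_ne_top (by simp) ENNReal.ofReal_ne_top)) (hNle f)
    rw [ENNReal.toReal_mul, ENNReal.toReal_mul, ENNReal.toReal_ofReal (norm_nonneg _)] at h2
    refine h2.trans (le_of_eq ?_)
    rw [ENNReal.toReal_add (by simp) (by simp)]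
    simp
    ring
  have hnn : ∀ f : Lp 𝕜 (ENNReal.ofReal p) mu, 0 ≤ Nf p f := fun f => ENNReal.toReal_nonneg
  have hzero : ∀ f : Lp 𝕜 (ENNReal.ofReal p) mu, Nf p f = 0 ↔ f = 0 := by
    intro f
    constructor
    · intro h
      have := hlow f
      rw [h, mul_zero] at this
      exact norm_le_zero_iff.1 this
    · rintro rfl
      have := hup (0 : Lp 𝕜 (ENNReal.ofReal p) mu)
      rw [norm_zero, mul_zero] at this
      exact le_antisymm this (hnn _)
  -- the quantitative triangle inequality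
  have htri : ∀ (f g : Lp 𝕜 (ENNReal.ofReal p) mu) (θ : ℝ), 0 < θ → θ ≤ 1 / 2 →
      Nf p (f + g) ≤ Nf p f + 2 * D * θ * Nf p f + (1 + D / θ) * Nf p g := by
    intro f g θ hθ hθ2
    set t : ℝ≥0 := ⟨θ, hθ.le⟩ with ht
    have ht0 : 0 < t := hθ
    have htc : (t : ℝ) = θ := rfl
    have ht2 : t ≤ 1 / 2 := by
      rw [← NNReal.coe_le_coe, htc]; simpa using hθ2
    have h1 : NN (MM p) (ab p (f + g)) ≤ NN (MM p) (ab p f + ab p g) := by
      refine NN_mono hM ((finL_ab hp f).add (finL_ab hp g)) fun j => ?_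
      simp only [ab, Pi.add_apply]
      rw [coef_add hp]
      exact nnnorm_add_le _ _
    have h2 := NN_add hM (finL_ab hp f) (finL_ab hp g) ht0 ht2
    have h3 : NN (MM p) (ab p (f + g)) ≤ NN (MM p) (ab p f) + 2 * D * t * NN (MM p) (ab p f) +
        (1 + (D / t : ℝ≥0)) * NN (MM p) (ab p g) := by
      refine h1.trans (h2.trans ?_)
      rw [ENNReal.coe_div ht0.ne']
      gcongr
      · exact hMN f
      · exact hMN g
    have e1 : 2 * (D : ℝ≥0∞) * t * NN (MM p) (ab p f) ≠ ⊤ :=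
      ENNReal.mul_ne_top (by norm_cast; exact ENNReal.coe_ne_top) (hfin f)
    have e2 : (1 + ((D / t : ℝ≥0) : ℝ≥0∞)) * NN (MM p) (ab p g) ≠ ⊤ :=
      ENNReal.mul_ne_top (by norm_cast; exact ENNReal.coe_ne_top) (hfin g)
    have h4 := ENNReal.toReal_mono (ENNReal.add_ne_top.2 ⟨ENNReal.add_ne_top.2 ⟨hfin f, e1⟩, e2⟩) h3
    rw [ENNReal.toReal_add (ENNReal.add_ne_top.2 ⟨hfin f, e1⟩) e2,
      ENNReal.toReal_add (hfin f) e1, ENNReal.toReal_mul, ENNReal.toReal_mul, ENNReal.toReal_mul,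
      ENNReal.toReal_mul, ENNReal.toReal_add (by simp) ENNReal.coe_ne_top] at h4
    simp only [ENNReal.toReal_ofNat, ENNReal.coe_toReal, ENNReal.toReal_one, NNReal.coe_div,
      htc] at h4
    exact h4
  set L : ℝ := 3 * D + 1 with hL
  have hL0 : 0 ≤ L := by positivity
  have hs : ∀ f g : Lp 𝕜 (ENNReal.ofReal p) mu, Nf p g ≤ Nf p f →
      Nf p (f + g) ^ (1 / (L + 2)) ≤ Nf p f ^ (1 / (L + 2)) + Nf p g ^ (1 / (L + 2)) := by
    intro f g hgf
    rcases (hnn g).eq_or_lt with h0 | h0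
    · have : g = 0 := (hzero g).1 h0.symm
      subst this
      rw [add_zero, ← h0, Real.zero_rpow (by positivity), add_zero]
    · set a := Nf p f with ha
      set b := Nf p g with hb
      have ha0 : 0 < a := h0.trans_le hgf
      refine snorm_real ha0.le h0.le hgf (hnn _) hL0 ?_
      set r := Real.sqrt (b / a) with hr
      have hr0 : 0 < r := Real.sqrt_pos.2 (by positivity)
      have hr1 : r ≤ 1 := by
        rw [hr, Real.sqrt_le_iff]
        exact ⟨zero_le_one, by rw [one_pow]; exact div_le_one_of_le₀ hgf ha0.le⟩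
      have hrsq : r * r = b / a := Real.mul_self_sqrt (by positivity)
      have hbr : b = a * (r * r) := by rw [hrsq]; field_simp
      have hsab : Real.sqrt (a * b) = a * r := by
        rw [hbr, show a * (a * (r * r)) = (a * r) ^ 2 by ring, Real.sqrt_sq (by positivity)]
      have h1 := htri f g (r / 2) (by positivity) (by linarith)
      rw [← ha, ← hb] at h1
      rw [hsab]
      have e1 : (D : ℝ) / (r / 2) * b = 2 * D * (a * r) := by
        rw [hbr]; field_simp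
      have e2 : b ≤ a * r := by
        rw [hbr]
        have : a * (r * r) ≤ a * (r * 1) := by gcongr
        linarith
      calc Nf p (f + g) ≤ a + 2 * D * (r / 2) * a + (1 + D / (r / 2)) * b := h1
        _ = a + D * (a * r) + b + D / (r / 2) * b := by ring
        _ = a + D * (a * r) + b + 2 * D * (a * r) := by rw [e1]
        _ ≤ a + D * (a * r) + a * r + 2 * D * (a * r) := by linarith
        _ = a + L * (a * r) := by rw [hL]; ring
  refine ⟨1 / (L + 2), by positivity, ?_, Nf p, ⟨hnn, hzero, ?_, ?_, ?_⟩, ?_⟩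
  · rw [div_lt_one (by positivity)]; linarith
  · intro c f
    have h1 : ab p (c • f) = ‖c‖₊ • ab p f := by
      funext j
      simp only [ab, Pi.smul_apply, smul_eq_mul]
      rw [coef_smul, nnnorm_mul]
    unfold Nf
    rw [h1, NN_smul hM, ENNReal.toReal_mul]
    rfl
  · intro f g
    rcases le_total (Nf p g) (Nf p f) with h | h
    · exact hs f g h
    · have := hs g f h
      rw [add_comm g f] at this
      linarith
  · refine ⟨1 / 2, (1 + D) * C, by norm_num, fun f => ⟨?_, hup f⟩⟩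
    have := hlow f
    linarith
  · intro f A hA B b hcard
    have e1 : ab p (f - ∑ j ∈ A, coef p j f • hv 𝕜 p j) =
        fun j => if j ∈ A then 0 else ab p f j := by
      funext j
      simp only [ab]
      rw [coef_sub hp, coef_comb hp A (fun j => coef p j f) j]
      split_ifs with h
      · rw [sub_self, nnnorm_zero]
      · rw [sub_zero]
    have e2 : ∀ j ∉ B, ab p (f - ∑ j ∈ B, b j • hv 𝕜 p j) j = ab p f j := by
      intro j hj
      simp only [ab]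
      rw [coef_sub hp, coef_comb hp, if_neg hj, sub_zero]
    have h1 := NN_greedy hM (finL_ab hp f) hcard
      (fun j hj i hi => by exact_mod_cast hA j hj i hi) e2 (finL_ab hp _)
    rw [← e1] at h1
    exact ENNReal.toReal_mono (hfin _) h1

end proof

/-- For every `1 < p < ∞` (in particular for `p ≠ 2`) and real or complex scalars there are
`0 < s < 1` and an equivalent `s`-norm on `L_p[0,1]` with respect to which the Haar system is
1-greedy. -/
theorem result (𝕜 : Type) [RCLike 𝕜] (p : ℝ) (hp : 1 < p) :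
    ∃ s : ℝ, 0 < s ∧ s < 1 ∧ ∃ N : LpI 𝕜 p → ℝ, IsEquivSNorm s N ∧ IsOneGreedy N := by
  have : Fact (1 ≤ ENNReal.ofReal p) := ⟨ENNReal.one_le_ofReal.2 hp.le⟩
  obtain ⟨s, hs0, hs1, N, ⟨h1, h2, h3, h4, h5⟩, h6⟩ := main (𝕜 := 𝕜) hp
  refine ⟨s, hs0, hs1, N, ⟨h1, h2, h3, h4, h5⟩, ?_⟩
  intro f A hA B b hcard
  have h7 := h6 f A (fun j hj i hi => by rw [← coeff_eq, ← coeff_eq]; exact hA j hj i hi) B b hcard
  simp only [haarVec_eq, coeff_eq]
  exact h7

end Pool.Agent.Results.MP_877d49_an.SNormRenorming
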